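import Mathlib

namespace Pool.Agent.Results.MP_d11917_an.StripAnt

/-- An ant configuration: grid `c`, position `p`, direction `q`. -/
structure Conf where
  c : ℤ × ℤ → ℕ
  p : ℤ × ℤ
  q : ℤ × ℤ

/-- The map `T_w`; the rule word is a list of booleans, `true` = R (clockwise turn
`(a,b) ↦ (b,-a)`), `false` = L (counterclockwise turn `(a,b) ↦ (-b,a)`). -/
def step (w : List Bool) (C : Conf) : Conf :=
  let q' : ℤ × ℤ := if w.getD (C.c C.p) false then (C.q.2, -C.q.1) else (-C.q.2, C.q.1)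
  ⟨Function.update C.c C.p ((C.c C.p + 1) % w.length), C.p + q', q'⟩

/-- The grid takes values in `{0,…,m-1}` and the direction is one of the four unit vectors. -/
def Valid (w : List Bool) (C : Conf) : Prop :=
  (∀ x, C.c x < w.length) ∧ (C.q = (0, 1) ∨ C.q = (1, 0) ∨ C.q = (0, -1) ∨ C.q = (-1, 0))

/-- The cells visited at infinitely many times. -/
def Rec (w : List Bool) (C : Conf) : Set (ℤ × ℤ) :=
  {x | {t : ℕ | ((step w)^[t] C).p = x}.Infinite}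

def w0 : List Bool := [false, false, true, false, true]

def dir : ℕ → ℤ × ℤ
  | 0 => (0, 1)
  | 1 => (1, 0)
  | 2 => (0, -1)
  | _ => (-1, 0)

structure A where
  L : ℕ → List ℕ
  h : List ℕ
  R : ℕ → List ℕ
  y : ℕ
  d : ℕ
  x : ℤ

def Rep (C : Conf) (a : A) : Prop :=
  C.p = (a.x, (a.y : ℤ)) ∧ a.y < 6 ∧ a.d < 4 ∧ C.q = dir a.d ∧
  (∀ j : ℕ, j < 6 → C.c (a.x, (j : ℤ)) = a.h.getD j 0 % 5) ∧
  (∀ i j : ℕ, j < 6 → C.c (a.x + 1 + i, (j : ℤ)) = (a.R i).getD j 0 % 5) ∧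
  (∀ i j : ℕ, j < 6 → C.c (a.x - 1 - i, (j : ℤ)) = (a.L i).getD j 0 % 5)

def tp : List (List ℕ) → (ℕ → List ℕ) → ℕ → List ℕ
  | [], f, i => f i
  | c :: _, _, 0 => c
  | _ :: l, f, i + 1 => tp l f i

@[simp] lemma tp_nil (f : ℕ → List ℕ) : tp [] f = f := by
  funext i; simp [tp]

lemma tp_append (l m : List (List ℕ)) (f : ℕ → List ℕ) : tp (l ++ m) f = tp l (tp m f) := by
  induction l with
  | nil => simp
  | cons c l ih =>
    funext i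
    cases i with
    | zero => simp [tp]
    | succ i => simp [tp, ih]

abbrev F := List (List ℕ) × List ℕ × List (List ℕ) × ℕ × ℕ × ℤ

def nd (h : List ℕ) (y d : ℕ) : ℕ := (d + if w0.getD (h.getD y 0 % 5) false then 1 else 3) % 4

def nh (h : List ℕ) (y : ℕ) : List ℕ := h.set y ((h.getD y 0 % 5 + 1) % 5)

def fstep : F → Option F
  | (L, h, R, y, d, x) =>
    if y < h.length then
      if nd h y d = 0 then (if y + 1 < 6 then some (L, nh h y, R, y + 1, 0, x) else none)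
      else if nd h y d = 1 then
        (match R with
          | [] => none
          | r :: R => some (nh h y :: L, r, R, y, 1, x + 1))
      else if nd h y d = 2 then (if 0 < y then some (L, nh h y, R, y - 1, 2, x) else none)
      else
        (match L with
          | [] => none
          | l :: L => some (L, l, nh h y :: R, y, 3, x - 1))
    else none

def run : ℕ → F → Option F
  | 0, s => some s
  | n + 1, s => (fstep s).bind (run n)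

def ab (fL fR : ℕ → List ℕ) (x0 : ℤ) (s : F) : A :=
  ⟨tp s.1 fL, s.2.1, tp s.2.2.1 fR, s.2.2.2.1, s.2.2.2.2.1, x0 + s.2.2.2.2.2⟩

lemma core (C : Conf) (a : A) (H : Rep C a) (hy : a.y < a.h.length) :
    (step w0 C).q = dir (nd a.h a.y a.d) ∧
    (step w0 C).p = (a.x, (a.y : ℤ)) + dir (nd a.h a.y a.d) ∧
    (∀ j : ℕ, j < 6 → (step w0 C).c (a.x, (j : ℤ)) = (nh a.h a.y).getD j 0 % 5) ∧
    (∀ i j : ℕ, j < 6 → (step w0 C).c (a.x + 1 + i, (j : ℤ)) = (a.R i).getD j 0 % 5) ∧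
    (∀ i j : ℕ, j < 6 → (step w0 C).c (a.x - 1 - i, (j : ℤ)) = (a.L i).getD j 0 % 5) := by
  obtain ⟨hp, hy6, hd, hq, hh, hR, hL⟩ := H
  have hk : C.c C.p = a.h.getD a.y 0 % 5 := by rw [hp]; exact hh _ hy6
  have hq' : (step w0 C).q = dir (nd a.h a.y a.d) := by
    simp only [step, nd, hk, hq]
    generalize w0.getD (a.h.getD a.y 0 % 5) false = b
    generalize a.d = d at hd
    interval_cases d <;> cases b <;> simp [dir]
  refine ⟨hq', ?_, ?_, ?_, ?_⟩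
  · rw [← hq', ← hp]; rfl
  · intro j hj
    by_cases e : j = a.y
    · subst e
      have : (step w0 C).c C.p = (C.c C.p + 1) % 5 := by simp [step, w0]
      rw [← hp, this, hk]
      simp [nh, List.getD_eq_getElem?_getD, List.getElem?_set_self hy]
    · have h1 : ((a.x, (j : ℤ)) : ℤ × ℤ) ≠ C.p := by
        rw [hp]; intro h; apply e; have := congrArg Prod.snd h; simpa using this
      have : (step w0 C).c (a.x, (j : ℤ)) = C.c (a.x, (j : ℤ)) := by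
        simp [step, Function.update_of_ne h1]
      rw [this, hh j hj]
      simp [nh, List.getD_eq_getElem?_getD, List.getElem?_set_ne (Ne.symm e)]
  · intro i j hj
    have h1 : ((a.x + 1 + i, (j : ℤ)) : ℤ × ℤ) ≠ C.p := by
      rw [hp]; intro h; have := congrArg Prod.fst h; simp only at this; omega
    rw [← hR i j hj]; simp [step, Function.update_of_ne h1]
  · intro i j hj
    have h1 : ((a.x - 1 - i, (j : ℤ)) : ℤ × ℤ) ≠ C.p := by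
      rw [hp]; intro h; have := congrArg Prod.fst h; simp only at this; omega
    rw [← hL i j hj]; simp [step, Function.update_of_ne h1]

lemma one (s s' : F) (hs : fstep s = some s') (fL fR : ℕ → List ℕ) (x0 : ℤ) (C : Conf)
    (H : Rep C (ab fL fR x0 s)) : Rep (step w0 C) (ab fL fR x0 s') := by
  obtain ⟨L, h, R, y, d, x⟩ := s
  simp only [fstep] at hs
  split_ifs at hs with hy h0 h1 h2 h3 h4
  · obtain ⟨a1, a2, a3, a4, a5⟩ := core C _ H hy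
    simp only [ab, h0] at a1 a2 a3 a4 a5
    cases hs
    refine ⟨?_, h1, by simp [ab], a1, a3, a4, a5⟩
    rw [a2]; simp [ab, dir]
  · obtain ⟨a1, a2, a3, a4, a5⟩ := core C _ H hy
    have hy6 := H.2.1
    cases R with
    | nil => simp at hs
    | cons r R =>
      simp only [ab, h2] at a1 a2 a3 a4 a5
      cases hs
      refine ⟨?_, hy6, by simp [ab], a1, ?_, ?_, ?_⟩
      · rw [a2]; simp [ab, dir]; ring
      · intro j hj
        have := a4 0 j hj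
        simp only [ab, tp] at this ⊢
        rw [← this]; congr 2; push_cast; ring
      · intro i j hj
        have := a4 (i + 1) j hj
        simp only [ab, tp] at this ⊢
        rw [← this]; congr 2; push_cast; ring
      · intro i j hj
        cases i with
        | zero =>
          have := a3 j hj
          simp only [ab, tp] at this ⊢
          rw [← this]; congr 2; push_cast; ring
        | succ i =>
          have := a5 i j hj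
          simp only [ab, tp] at this ⊢
          rw [← this]; congr 2; push_cast; ring
  · obtain ⟨a1, a2, a3, a4, a5⟩ := core C _ H hy
    have hy6 : y < 6 := H.2.1
    simp only [ab, h3] at a1 a2 a3 a4 a5
    cases hs
    refine ⟨?_, by simp only [ab]; omega, by simp [ab], a1, a3, a4, a5⟩
    rw [a2]; simp only [ab, dir, Prod.mk_add_mk, Prod.mk.injEq]; omega
  · obtain ⟨a1, a2, a3, a4, a5⟩ := core C _ H hy
    have hy6 := H.2.1
    have h5 : nd h y d = 3 := by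
      have : nd h y d < 4 := Nat.mod_lt _ (by norm_num)
      omega
    cases L with
    | nil => simp at hs
    | cons l L =>
      simp only [ab, h5] at a1 a2 a3 a4 a5
      cases hs
      refine ⟨?_, hy6, by simp [ab], a1, ?_, ?_, ?_⟩
      · rw [a2]; simp [ab, dir]; ring
      · intro j hj
        have := a5 0 j hj
        simp only [ab, tp] at this ⊢
        rw [← this]; congr 2; push_cast; ring
      · intro i j hj
        cases i with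
        | zero =>
          have := a3 j hj
          simp only [ab, tp] at this ⊢
          rw [← this]; congr 2; push_cast; ring
        | succ i =>
          have := a4 i j hj
          simp only [ab, tp] at this ⊢
          rw [← this]; congr 2; push_cast; ring
      · intro i j hj
        have := a5 (i + 1) j hj
        simp only [ab, tp] at this ⊢
        rw [← this]; congr 2; push_cast; ring

def Go (m : ℕ) (a b : A) : Prop :=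
  ∀ C, Rep C a → ∃ n, m ≤ n ∧ Rep ((step w0)^[n] C) b ∧ ∀ t < n, ((step w0)^[t] C).p.2 < 6

lemma Go.refl (a : A) : Go 0 a a := fun C H => ⟨0, le_rfl, H, by simp⟩

lemma Go.mono {m k : ℕ} {a b : A} (h : Go m a b) (hk : k ≤ m) : Go k a b := fun C H =>
  let ⟨n, h1, h2⟩ := h C H
  ⟨n, hk.trans h1, h2⟩

lemma Go.trans {m k : ℕ} {a b c : A} (h : Go m a b) (g : Go k b c) : Go m a c := by
  intro C H
  obtain ⟨n, h1, h2, h3⟩ := h C H
  obtain ⟨n', _, g2, g3⟩ := g _ h2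
  refine ⟨n' + n, by omega, by rwa [Function.iterate_add_apply], ?_⟩
  intro t ht
  by_cases e : t < n
  · exact h3 t e
  · obtain ⟨u, rfl⟩ : ∃ u, t = u + n := ⟨t - n, by omega⟩
    rw [Function.iterate_add_apply]
    exact g3 u (by omega)

lemma go_run (n : ℕ) (s s' : F) (hs : run n s = some s') (fL fR : ℕ → List ℕ) (x0 : ℤ) :
    Go n (ab fL fR x0 s) (ab fL fR x0 s') := by
  induction n generalizing s with
  | zero => cases hs; exact Go.refl _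
  | succ n ih =>
    simp only [run] at hs
    cases e : fstep s with
    | none => simp [e] at hs
    | some s1 =>
      rw [e] at hs
      intro C H
      obtain ⟨k, h1, h2, h3⟩ := ih s1 hs _ (one s s1 e fL fR x0 C H)
      refine ⟨k + 1, by omega, h2, ?_⟩
      intro t ht
      cases t with
      | zero =>
        have h4 := H.1
        have h5 := H.2.1
        simp only [Function.iterate_zero, id, h4]
        exact_mod_cast h5
      | succ t => exact h3 t (by omega)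

def chk : Option F → F → Bool
  | none, _ => false
  | some t, s => decide (t.1 = s.1) && decide (t.2.1 = s.2.1) && decide (t.2.2.1 = s.2.2.1) &&
      decide (t.2.2.2 = s.2.2.2)

lemma go_chk (n : ℕ) (s s' : F) (hs : chk (run n s) s' = true) (fL fR : ℕ → List ℕ) (x0 : ℤ) :
    Go n (ab fL fR x0 s) (ab fL fR x0 s') := by
  apply go_run
  cases e : run n s with
  | none => simp [e, chk] at hs
  | some t =>
    rw [e] at hs
    simp only [chk, Bool.and_eq_true, decide_eq_true_eq] at hs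
    obtain ⟨⟨⟨h1, h2⟩, h3⟩, h4⟩ := hs
    congr 1
    exact Prod.ext h1 (Prod.ext h2 (Prod.ext h3 h4))

lemma M1 (fL fR : ℕ → List ℕ) (x : ℤ) :
    Go 8 ⟨tp [[0,3,4,0,3,4], [3,2,2,1,3,0], [0,3,2,3,3,4], [3,2,1,0,3,0]] fL, [4,3,2,1,3,0], tp [] fR, 3, 3, x⟩
      ⟨tp [] fL, [3,2,1,0,3,0], tp [[0,3,3,4,3,4], [3,2,3,2,3,0], [0,3,0,1,3,4], [4,3,3,2,3,0]] fR, 3, 3, x + (-4)⟩ := by
  have := go_chk 8 ([[0,3,4,0,3,4], [3,2,2,1,3,0], [0,3,2,3,3,4], [3,2,1,0,3,0]], [4,3,2,1,3,0], [], 3, 3, 0)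
    ([], [3,2,1,0,3,0], [[0,3,3,4,3,4], [3,2,3,2,3,0], [0,3,0,1,3,4], [4,3,3,2,3,0]], 3, 3, -4) (by decide +kernel) fL fR x
  simpa [ab] using this

lemma S1 (fL fR : ℕ → List ℕ) (x : ℤ) :
    Go 16 ⟨tp [[0,3,2,3,3,4], [3,2,1,0,3,0]] fL, [3,2,1,0,3,0], tp [[0,3,3,4,3,4], [3,2,3,2,3,0], [0,3,0,1,3,4]] fR, 3, 3, x⟩
      ⟨tp [] fL, [3,2,1,0,3,0], tp [[0,3,3,4,3,4], [3,2,3,2,3,0], [0,3,0,1,3,4], [3,2,0,4,3,0], [0,3,1,2,3,4]] fR, 3, 3, x + (-2)⟩ := by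
  have := go_chk 16 ([[0,3,2,3,3,4], [3,2,1,0,3,0]], [3,2,1,0,3,0], [[0,3,3,4,3,4], [3,2,3,2,3,0], [0,3,0,1,3,4]], 3, 3, 0)
    ([], [3,2,1,0,3,0], [[0,3,3,4,3,4], [3,2,3,2,3,0], [0,3,0,1,3,4], [3,2,0,4,3,0], [0,3,1,2,3,4]], 3, 3, -2) (by decide +kernel) fL fR x
  simpa [ab] using this

lemma M2 (fL fR : ℕ → List ℕ) (x : ℤ) :
    Go 62 ⟨tp [[0,2,4,0,2,4], [2,1,0,2,1,0], [4,1,3,3,1,4], [2,4,3,2,1,0], [4,4,1,3,1,4], [2,2,1,2,1,0], [4,3,0,3,1,4]] fL, [3,2,1,0,3,0], tp [[0,3,3,4,3,4], [3,2,3,2,3,0], [0,3,0,1,3,4]] fR, 3, 3, x⟩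
      ⟨tp [[3,2,1,0,3,0], [0,3,2,3,3,4], [3,2,1,0,3,0], [0,3,2,3,3,4], [3,2,1,0,3,0], [0,2,4,0,2,4], [2,1,0,2,1,0], [4,1,3,3,1,4], [2,4,3,2,1,0], [4,4,1,3,1,4]] fL, [0,3,1,2,3,4], tp [] fR, 2, 1, x + (3)⟩ := by
  have := go_chk 62 ([[0,2,4,0,2,4], [2,1,0,2,1,0], [4,1,3,3,1,4], [2,4,3,2,1,0], [4,4,1,3,1,4], [2,2,1,2,1,0], [4,3,0,3,1,4]], [3,2,1,0,3,0], [[0,3,3,4,3,4], [3,2,3,2,3,0], [0,3,0,1,3,4]], 3, 3, 0)
    ([[3,2,1,0,3,0], [0,3,2,3,3,4], [3,2,1,0,3,0], [0,3,2,3,3,4], [3,2,1,0,3,0], [0,2,4,0,2,4], [2,1,0,2,1,0], [4,1,3,3,1,4], [2,4,3,2,1,0], [4,4,1,3,1,4]], [0,3,1,2,3,4], [], 2, 1, 3) (by decide +kernel) fL fR x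
  simpa [ab] using this

lemma S2 (fL fR : ℕ → List ℕ) (x : ℤ) :
    Go 4 ⟨tp [] fL, [0,3,1,2,3,4], tp [[3,2,0,4,3,0], [0,3,1,2,3,4]] fR, 2, 1, x⟩
      ⟨tp [[3,2,1,0,3,0], [0,3,2,3,3,4]] fL, [0,3,1,2,3,4], tp [] fR, 2, 1, x + (2)⟩ := by
  have := go_chk 4 ([], [0,3,1,2,3,4], [[3,2,0,4,3,0], [0,3,1,2,3,4]], 2, 1, 0)
    ([[3,2,1,0,3,0], [0,3,2,3,3,4]], [0,3,1,2,3,4], [], 2, 1, 2) (by decide +kernel) fL fR x
  simpa [ab] using this

lemma M3 (fL fR : ℕ → List ℕ) (x : ℤ) :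
    Go 20 ⟨tp [[3,2,1,0,3,0]] fL, [0,3,1,2,3,4], tp [[4,3,3,2,3,0], [0,3,0,1,2,3], [4,3,3,2,3,0], [0,3,0,1,2,3]] fR, 2, 1, x⟩
      ⟨tp [[4,3,4,3,3,0], [0,3,2,3,2,3], [4,3,1,0,3,0], [0,3,4,0,3,4], [3,2,2,1,3,0]] fL, [0,3,0,1,2,3], tp [] fR, 2, 1, x + (4)⟩ := by
  have := go_chk 20 ([[3,2,1,0,3,0]], [0,3,1,2,3,4], [[4,3,3,2,3,0], [0,3,0,1,2,3], [4,3,3,2,3,0], [0,3,0,1,2,3]], 2, 1, 0)
    ([[4,3,4,3,3,0], [0,3,2,3,2,3], [4,3,1,0,3,0], [0,3,4,0,3,4], [3,2,2,1,3,0]], [0,3,0,1,2,3], [], 2, 1, 4) (by decide +kernel) fL fR x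
  simpa [ab] using this

lemma S3 (fL fR : ℕ → List ℕ) (x : ℤ) :
    Go 16 ⟨tp [[4,3,4,3,3,0], [0,3,2,3,2,3], [4,3,1,0,3,0]] fL, [0,3,0,1,2,3], tp [[4,3,3,2,3,0], [0,3,0,1,2,3]] fR, 2, 1, x⟩
      ⟨tp [[4,3,4,3,3,0], [0,3,2,3,2,3], [4,3,1,0,3,0], [0,3,4,0,2,3], [4,3,2,1,3,0]] fL, [0,3,0,1,2,3], tp [] fR, 2, 1, x + (2)⟩ := by
  have := go_chk 16 ([[4,3,4,3,3,0], [0,3,2,3,2,3], [4,3,1,0,3,0]], [0,3,0,1,2,3], [[4,3,3,2,3,0], [0,3,0,1,2,3]], 2, 1, 0)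
    ([[4,3,4,3,3,0], [0,3,2,3,2,3], [4,3,1,0,3,0], [0,3,4,0,2,3], [4,3,2,1,3,0]], [0,3,0,1,2,3], [], 2, 1, 2) (by decide +kernel) fL fR x
  simpa [ab] using this

lemma M4 (fL fR : ℕ → List ℕ) (x : ℤ) :
    Go 62 ⟨tp [[4,3,4,3,3,0], [0,3,2,3,2,3], [4,3,1,0,3,0]] fL, [0,3,0,1,2,3], tp [[4,2,0,4,2,0], [0,1,2,0,1,2], [4,1,3,3,1,4], [0,1,2,3,4,2], [4,1,3,1,4,4], [0,1,2,1,2,2], [4,1,3,0,3,4]] fR, 2, 1, x⟩
      ⟨tp [] fL, [4,3,2,1,3,0], tp [[0,3,0,1,2,3], [4,3,3,2,3,0], [0,3,0,1,2,3], [4,3,3,2,3,0], [0,3,0,1,2,3], [4,2,0,4,2,0], [0,1,2,0,1,2], [4,1,3,3,1,4], [0,1,2,3,4,2], [4,1,3,1,4,4]] fR, 3, 3, x + (-3)⟩ := by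
  have := go_chk 62 ([[4,3,4,3,3,0], [0,3,2,3,2,3], [4,3,1,0,3,0]], [0,3,0,1,2,3], [[4,2,0,4,2,0], [0,1,2,0,1,2], [4,1,3,3,1,4], [0,1,2,3,4,2], [4,1,3,1,4,4], [0,1,2,1,2,2], [4,1,3,0,3,4]], 2, 1, 0)
    ([], [4,3,2,1,3,0], [[0,3,0,1,2,3], [4,3,3,2,3,0], [0,3,0,1,2,3], [4,3,3,2,3,0], [0,3,0,1,2,3], [4,2,0,4,2,0], [0,1,2,0,1,2], [4,1,3,3,1,4], [0,1,2,3,4,2], [4,1,3,1,4,4]], 3, 3, -3) (by decide +kernel) fL fR x
  simpa [ab] using this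

lemma S4 (fL fR : ℕ → List ℕ) (x : ℤ) :
    Go 4 ⟨tp [[0,3,4,0,2,3], [4,3,2,1,3,0]] fL, [4,3,2,1,3,0], tp [] fR, 3, 3, x⟩
      ⟨tp [] fL, [4,3,2,1,3,0], tp [[0,3,0,1,2,3], [4,3,3,2,3,0]] fR, 3, 3, x + (-2)⟩ := by
  have := go_chk 4 ([[0,3,4,0,2,3], [4,3,2,1,3,0]], [4,3,2,1,3,0], [], 3, 3, 0)
    ([], [4,3,2,1,3,0], [[0,3,0,1,2,3], [4,3,3,2,3,0]], 3, 3, -2) (by decide +kernel) fL fR x
  simpa [ab] using this


def rp (b : List (List ℕ)) (n : ℕ) (f : ℕ → List ℕ) : ℕ → List ℕ := (tp b)^[n] f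

lemma rp_succ (b : List (List ℕ)) (n : ℕ) (f : ℕ → List ℕ) :
    rp b (n + 1) f = tp b (rp b n f) := Function.iterate_succ_apply' _ _ _

lemma rp_succ' (b : List (List ℕ)) (n : ℕ) (f : ℕ → List ℕ) :
    rp b (n + 1) f = rp b n (tp b f) := Function.iterate_succ_apply _ _ _

lemma rp_comm (p q : List ℕ) (n : ℕ) (f : ℕ → List ℕ) :
    rp [p, q] n (tp [p] f) = tp [p] (rp [q, p] n f) := by
  induction n with
  | zero => rfl
  | succ n ih => rw [rp_succ, rp_succ, ih, ← tp_append, ← tp_append]; rfl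

lemma shiftL (b c r : List (List ℕ)) (h : List ℕ) (y d m : ℕ)
    (H : ∀ fL fR x, Go m ⟨tp b fL, h, tp r fR, y, d, x⟩ ⟨fL, h, tp (r ++ c) fR, y, d, x + (-2)⟩)
    (n : ℕ) (fL fR : ℕ → List ℕ) (x : ℤ) :
    Go 0 ⟨rp b n fL, h, tp r fR, y, d, x⟩ ⟨fL, h, tp r (rp c n fR), y, d, x - 2 * n⟩ := by
  induction n generalizing fR x with
  | zero => simpa [rp] using Go.refl _
  | succ n ih =>
    rw [rp_succ, rp_succ']
    have h1 := H (rp b n fL) fR x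
    rw [tp_append] at h1
    have h2 := ih (tp c fR) (x + (-2))
    have e : x + (-2) - 2 * (n : ℤ) = x - 2 * ((n + 1 : ℕ) : ℤ) := by push_cast; ring
    rw [e] at h2
    exact (h1.trans h2).mono (Nat.zero_le _)

lemma shiftR (b c r : List (List ℕ)) (h : List ℕ) (y d m : ℕ)
    (H : ∀ fL fR x, Go m ⟨tp r fL, h, tp b fR, y, d, x⟩ ⟨tp (r ++ c) fL, h, fR, y, d, x + 2⟩)
    (n : ℕ) (fL fR : ℕ → List ℕ) (x : ℤ) :
    Go 0 ⟨tp r fL, h, rp b n fR, y, d, x⟩ ⟨tp r (rp c n fL), h, fR, y, d, x + 2 * n⟩ := by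
  induction n generalizing fL x with
  | zero => simpa [rp] using Go.refl _
  | succ n ih =>
    rw [rp_succ, rp_succ']
    have h1 := H fL (rp b n fR) x
    rw [tp_append] at h1
    have h2 := ih (tp c fL) (x + 2)
    have e : x + 2 + 2 * (n : ℤ) = x + 2 * ((n + 1 : ℕ) : ℤ) := by push_cast; ring
    rw [e] at h2
    exact (h1.trans h2).mono (Nat.zero_le _)

def bgL (i : ℕ) : List ℕ := if i % 2 = 0 then [2,2,1,2,1,0] else [4,3,0,3,1,4]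

def bgR (i : ℕ) : List ℕ := if i % 2 = 0 then [0,1,2,1,2,2] else [4,1,3,0,3,4]

lemma bgL_eq : bgL = tp [[2,2,1,2,1,0], [4,3,0,3,1,4]] bgL := by
  funext i
  match i with
  | 0 => rfl
  | 1 => rfl
  | i + 2 => simp [tp, bgL]

lemma bgR_eq : bgR = tp [[0,1,2,1,2,2], [4,1,3,0,3,4]] bgR := by
  funext i
  match i with
  | 0 => rfl
  | 1 => rfl
  | i + 2 => simp [tp, bgR]

def BL : ℕ → List ℕ := tp [[0,2,4,0,2,4], [2,1,0,2,1,0], [4,1,3,3,1,4], [2,4,3,2,1,0], [4,4,1,3,1,4]] bgL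

def BR : ℕ → List ℕ := tp [[4,2,0,4,2,0], [0,1,2,0,1,2], [4,1,3,3,1,4], [0,1,2,3,4,2], [4,1,3,1,4,4]] bgR

def K (n : ℕ) : A :=
  ⟨tp [[0,3,4,0,3,4], [3,2,2,1,3,0]] (rp [[0,3,2,3,3,4], [3,2,1,0,3,0]] (n + 1) BL), [4,3,2,1,3,0],
    rp [[0,3,0,1,2,3], [4,3,3,2,3,0]] (n + 1) (tp [[0,3,0,1,2,3]] BR), 3, 3, 0⟩

lemma cyc (n : ℕ) : Go 8 (K n) (K (n + 1)) := by
  have h1 := M1 (rp [[0,3,2,3,3,4], [3,2,1,0,3,0]] n BL) (K n).R 0
  have h2 := shiftL _ [[3,2,0,4,3,0], [0,3,1,2,3,4]] [[0,3,3,4,3,4], [3,2,3,2,3,0], [0,3,0,1,3,4]] _ _ _ _ (fun fL fR x => by simpa using S1 fL fR x) n BL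
    (tp [[4,3,3,2,3,0]] (K n).R) (0 + (-4))
  have h3 := M2 bgL (rp [[3,2,0,4,3,0], [0,3,1,2,3,4]] n (tp [[4,3,3,2,3,0]] (K n).R)) (0 + (-4) - 2 * n)
  have h4 := shiftR _ [[3,2,1,0,3,0], [0,3,2,3,3,4]] [] _ _ _ _ (fun fL fR x => by simpa using S2 fL fR x) n
    (tp [[3,2,1,0,3,0], [0,3,2,3,3,4], [3,2,1,0,3,0], [0,3,2,3,3,4], [3,2,1,0,3,0]] BL) (tp [[4,3,3,2,3,0]] (K n).R)
    (0 + (-4) - 2 * n + 3)
  have h5 := M3 (rp [[0,3,2,3,3,4], [3,2,1,0,3,0]] (n + 2) BL) (rp [[4,3,3,2,3,0], [0,3,0,1,2,3]] n BR)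
    (0 + (-4) - 2 * n + 3 + 2 * n)
  have h6 := shiftR _ [[0,3,4,0,2,3], [4,3,2,1,3,0]] [[4,3,4,3,3,0], [0,3,2,3,2,3], [4,3,1,0,3,0]] _ _ _ _ (fun fL fR x => by simpa using S3 fL fR x) n
    (tp [[0,3,4,0,3,4], [3,2,2,1,3,0]] (rp [[0,3,2,3,3,4], [3,2,1,0,3,0]] (n + 2) BL)) BR
    (0 + (-4) - 2 * n + 3 + 2 * n + 4)
  have h7 := M4 (rp [[0,3,4,0,2,3], [4,3,2,1,3,0]] n (tp [[0,3,4,0,3,4], [3,2,2,1,3,0]]
    (rp [[0,3,2,3,3,4], [3,2,1,0,3,0]] (n + 2) BL))) bgR (0 + (-4) - 2 * n + 3 + 2 * n + 4 + 2 * n)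
  have h8 := shiftL _ [[0,3,0,1,2,3], [4,3,3,2,3,0]] [] _ _ _ _ (fun fL fR x => by simpa using S4 fL fR x) n
    (tp [[0,3,4,0,3,4], [3,2,2,1,3,0]] (rp [[0,3,2,3,3,4], [3,2,1,0,3,0]] (n + 2) BL))
    (tp [[0,3,0,1,2,3], [4,3,3,2,3,0], [0,3,0,1,2,3], [4,3,3,2,3,0], [0,3,0,1,2,3]] BR)
    (0 + (-4) - 2 * n + 3 + 2 * n + 4 + 2 * n + (-3))
  have e1 : tp [[0,3,4,0,3,4], [3,2,2,1,3,0], [0,3,2,3,3,4], [3,2,1,0,3,0]] (rp [[0,3,2,3,3,4], [3,2,1,0,3,0]] n BL) = (K n).L := by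
    simp only [K]; rw [rp_succ, ← tp_append]; rfl
  have e2 : ∀ f, tp [[0,3,3,4,3,4], [3,2,3,2,3,0], [0,3,0,1,3,4], [4,3,3,2,3,0]] f =
      tp [[0,3,3,4,3,4], [3,2,3,2,3,0], [0,3,0,1,3,4]] (tp [[4,3,3,2,3,0]] f) := fun f => by rw [← tp_append]; rfl
  have e3 : tp [[0,2,4,0,2,4], [2,1,0,2,1,0], [4,1,3,3,1,4], [2,4,3,2,1,0], [4,4,1,3,1,4], [2,2,1,2,1,0], [4,3,0,3,1,4]] bgL = BL := by
    conv_rhs => rw [BL, bgL_eq, ← tp_append]
    rfl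
  have e4 : tp [[3,2,1,0,3,0], [0,3,2,3,3,4], [3,2,1,0,3,0], [0,3,2,3,3,4], [3,2,1,0,3,0], [0,2,4,0,2,4], [2,1,0,2,1,0], [4,1,3,3,1,4], [2,4,3,2,1,0], [4,4,1,3,1,4]] bgL =
      tp [[3,2,1,0,3,0], [0,3,2,3,3,4], [3,2,1,0,3,0], [0,3,2,3,3,4], [3,2,1,0,3,0]] BL := by
    rw [BL, ← tp_append]; rfl
  have e5 : rp [[3,2,1,0,3,0], [0,3,2,3,3,4]] n (tp [[3,2,1,0,3,0], [0,3,2,3,3,4], [3,2,1,0,3,0], [0,3,2,3,3,4], [3,2,1,0,3,0]] BL) =
      tp [[3,2,1,0,3,0]] (rp [[0,3,2,3,3,4], [3,2,1,0,3,0]] (n + 2) BL) := by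
    rw [← rp_comm, rp_succ', rp_succ', ← tp_append, ← tp_append]; rfl
  have e6 : tp [[4,3,3,2,3,0], [0,3,0,1,2,3], [4,3,3,2,3,0], [0,3,0,1,2,3]] (rp [[4,3,3,2,3,0], [0,3,0,1,2,3]] n BR) =
      tp [[4,3,3,2,3,0]] (K n).R := by
    simp only [K]
    rw [rp_comm, rp_succ, ← tp_append, ← tp_append]; rfl
  have e7 : ∀ f, tp [[4,3,4,3,3,0], [0,3,2,3,2,3], [4,3,1,0,3,0], [0,3,4,0,3,4], [3,2,2,1,3,0]] f =
      tp [[4,3,4,3,3,0], [0,3,2,3,2,3], [4,3,1,0,3,0]] (tp [[0,3,4,0,3,4], [3,2,2,1,3,0]] f) := fun f => by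
    rw [← tp_append]; rfl
  have e8 : tp [[4,2,0,4,2,0], [0,1,2,0,1,2], [4,1,3,3,1,4], [0,1,2,3,4,2], [4,1,3,1,4,4], [0,1,2,1,2,2], [4,1,3,0,3,4]] bgR = BR := by
    conv_rhs => rw [BR, bgR_eq, ← tp_append]
    rfl
  have e9 : tp [[0,3,0,1,2,3], [4,3,3,2,3,0], [0,3,0,1,2,3], [4,3,3,2,3,0], [0,3,0,1,2,3], [4,2,0,4,2,0], [0,1,2,0,1,2], [4,1,3,3,1,4], [0,1,2,3,4,2], [4,1,3,1,4,4]] bgR =
      tp [[0,3,0,1,2,3], [4,3,3,2,3,0], [0,3,0,1,2,3], [4,3,3,2,3,0], [0,3,0,1,2,3]] BR := by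
    rw [BR, ← tp_append]; rfl
  have e10 : rp [[0,3,0,1,2,3], [4,3,3,2,3,0]] n (tp [[0,3,0,1,2,3], [4,3,3,2,3,0], [0,3,0,1,2,3], [4,3,3,2,3,0], [0,3,0,1,2,3]] BR) =
      (K (n + 1)).R := by
    simp only [K]
    rw [rp_succ', rp_succ', ← tp_append, ← tp_append]; rfl
  have e11 : (0 + (-4) - 2 * n + 3 + 2 * n + 4 + 2 * n + (-3) - 2 * n : ℤ) = 0 := by ring
  rw [e1, e2] at h1
  rw [e3, e4] at h3
  rw [e6, e7] at h5
  rw [e8, e9] at h7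
  simp only [tp_nil] at h1 h3 h4 h5 h7 h8
  rw [e5] at h4
  rw [e10, e11] at h8
  exact h1.trans (h2.trans (h3.trans (h4.trans (h5.trans (h6.trans (h7.trans h8))))))

def C0 : Conf :=
  ⟨fun z => (if z.1 = 0 then (K 0).h else if 0 < z.1 then (K 0).R (z.1 - 1).toNat
    else (K 0).L (-z.1 - 1).toNat).getD z.2.toNat 0 % 5, (0, 3), (-1, 0)⟩

lemma rep0 : Rep C0 (K 0) := by
  refine ⟨rfl, by simp [K], by simp [K], rfl, ?_, ?_, ?_⟩
  · intro j _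
    have : (K 0).x = 0 := rfl
    simp [C0, this]
  · intro i j _
    have e : (K 0).x = 0 := rfl
    have h1 : ¬ ((K 0).x + 1 + i = 0) := by omega
    have h2 : 0 < (K 0).x + 1 + i := by omega
    have h3 : ((K 0).x + 1 + i - 1).toNat = i := by omega
    simp only [C0, h1, h2, h3, if_true, if_false, Int.toNat_natCast]
  · intro i j _
    have e : (K 0).x = 0 := rfl
    have h1 : ¬ ((K 0).x - 1 - i = 0) := by omega
    have h2 : ¬ (0 < (K 0).x - 1 - i) := by omega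
    have h3 : (-((K 0).x - 1 - i) - 1).toNat = i := by omega
    simp only [C0, h1, h2, h3, if_false, Int.toNat_natCast]

lemma times (n : ℕ) : ∃ T, n ≤ T ∧ Rep ((step w0)^[T] C0) (K n) ∧
    ∀ t < T, ((step w0)^[t] C0).p.2 < 6 := by
  induction n with
  | zero => exact ⟨0, le_rfl, rep0, by simp⟩
  | succ n ih =>
    obtain ⟨T, h1, h2, h3⟩ := ih
    obtain ⟨k, g1, g2, g3⟩ := cyc n _ h2
    refine ⟨k + T, by omega, by rwa [Function.iterate_add_apply], ?_⟩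
    intro t ht
    by_cases e : t < T
    · exact h3 t e
    · obtain ⟨u, rfl⟩ : ∃ u, t = u + T := ⟨t - T, by omega⟩
      rw [Function.iterate_add_apply]
      exact g3 u (by omega)

theorem result : ¬ ∀ (w : List Bool) (C : Conf), true ∈ w → false ∈ w → Valid w C →
    Rec w C = ∅ ∨ Rec w C = Set.univ := by
  intro H
  have hv : Valid w0 C0 := ⟨fun x => Nat.mod_lt _ (by norm_num), by simp [C0]⟩
  rcases H w0 C0 (by simp [w0]) (by simp [w0]) hv with h | h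
  · have : ((0, 3) : ℤ × ℤ) ∈ Rec w0 C0 := by
      apply Set.infinite_of_not_bddAbove
      rintro ⟨B, hB⟩
      obtain ⟨T, h1, h2, _⟩ := times (B + 1)
      have : T ≤ B := hB (show ((step w0)^[T] C0).p = (0, 3) from h2.1)
      omega
    rw [h] at this
    exact this
  · have : ((0, 10) : ℤ × ℤ) ∈ Rec w0 C0 := by rw [h]; trivial
    obtain ⟨t, ht⟩ := Set.Infinite.nonempty this
    obtain ⟨T, h1, _, h3⟩ := times (t + 1)
    have h4 := h3 t (by omega)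
    have h5 : ((step w0)^[t] C0).p = (0, 10) := ht
    rw [h5] at h4
    norm_num at h4

end Pool.Agent.Results.MP_d11917_an.StripAnt
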